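import Pool.Agent.H98.Cut9
import Pool.Agent.H98.Cut10

namespace Pool.Agent.Results.MP_b5bf4a_co.Estimate

/-- Every geometric graph on n points in general position with at least e edges has a line,
through no vertex, meeting at least t edges. -/
def Forces (n e t : ℕ) : Prop :=
  ∀ p : Fin n → ℝ × ℝ, Function.Injective p →
    (∀ a b c, a ≠ b → a ≠ c → b ≠ c → ¬ Collinear ℝ ({p a, p b, p c} : Set (ℝ × ℝ))) →
    ∀ G : SimpleGraph (Fin n), e ≤ G.edgeSet.ncard →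
      ∃ α β γ : ℝ, (α ≠ 0 ∨ β ≠ 0) ∧ (∀ v, α * (p v).1 + β * (p v).2 ≠ γ) ∧
        t ≤ Set.ncard {d ∈ G.edgeSet | ∃ u v, d = s(u, v) ∧
          ∃ x ∈ segment ℝ (p u) (p v), α * x.1 + β * x.2 = γ}

/-- The least number of edges forcing a line to meet t edges. -/
noncomputable def f (n t : ℕ) : ℕ := sInf {e | Forces n e t}

lemma upper (n k r e : ℕ)
    (he : ((k : ℝ) + ((r / 2 : ℕ) : ℝ) / (k + 1)) * n + 2 * ((k : ℝ) ^ 2 + k + r) < e) :
    Forces n e (k ^ 2 + k + r + 1) := by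
  classical
  intro p hinj hgp G hE
  by_contra hc
  push Not at hc
  obtain ⟨x, y, hs⟩ := Pool.Agent.H98.Cut.small_of_lines p hinj hgp G (k ^ 2 + k + r)
    (fun α β γ h1 h2 => Nat.le_of_lt_succ (hc α β γ h1 h2))
  have b := Pool.Agent.H98.Cut.slope_bound G hs k
  rw [Fintype.card_fin] at b
  have hE' : (e : ℝ) ≤ G.edgeFinset.card := by
    rw [← Set.ncard_coe_finset, SimpleGraph.coe_edgeFinset]
    exact_mod_cast hE
  have e1 : 2 * ((k ^ 2 + k + r) / 2) = k * (k + 1) + 2 * (r / 2) := by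
    obtain ⟨c, hc⟩ := Nat.even_mul_succ_self k
    have : k ^ 2 + k = k * (k + 1) := by ring
    omega
  rw [e1] at b
  have b' : ((k : ℝ) + 1) * (2 * G.edgeFinset.card)
      ≤ n * (k * (k + 1) + (k * (k + 1) + 2 * ((r / 2 : ℕ) : ℝ)))
        + 4 * (k + 1) * (k ^ 2 + k + r) := by exact_mod_cast b
  have hk : (0:ℝ) < k + 1 := by positivity
  have hq : ((r / 2 : ℕ) : ℝ) = (k + 1) * (((r / 2 : ℕ) : ℝ) / (k + 1)) := by field_simp
  generalize ((r / 2 : ℕ) : ℝ) / (k + 1) = w at he hq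
  rw [hq] at b'
  have t := mul_lt_mul_of_pos_left (lt_of_lt_of_le he hE') hk
  nlinarith

lemma lower (n k r e : ℕ) (hr : r ≤ 2 * k + 1) (h : Forces n e (k ^ 2 + k + r + 1)) :
    (n - k) * k + (n / (k + 1) - 1) * (r / 2) < e := by
  by_contra hc
  push Not at hc
  obtain ⟨α, β, γ, _, g2, g3⟩ := h (Pool.Agent.H98.Cut.par n) (Pool.Agent.H98.Cut.par_inj n)
    (Pool.Agent.H98.Cut.par_gp n) (Pool.Agent.H98.Cut.gr n k (r / 2))
    (hc.trans (Pool.Agent.H98.Cut.edge_count n k (r / 2) (by omega)))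
  have := g3.trans (Pool.Agent.H98.Cut.line_cut n k (r / 2) α β γ g2)
  omega

theorem result (n k r : ℕ) (hr : r ≤ 2 * k + 1) :
    ((k : ℝ) + ((r / 2 : ℕ) : ℝ) / (k + 1)) * n - (((k : ℝ) + 1) ^ 2 + 1)
        < f n (k ^ 2 + k + r + 1) ∧
      (f n (k ^ 2 + k + r + 1) : ℝ)
        ≤ ((k : ℝ) + ((r / 2 : ℕ) : ℝ) / (k + 1)) * n + 2 * ((k : ℝ) ^ 2 + k + r) + 1 := by
  have hk : (0:ℝ) ≤ k := Nat.cast_nonneg k
  have hn0 : (0:ℝ) ≤ n := Nat.cast_nonneg n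
  set X : ℝ := ((k : ℝ) + ((r / 2 : ℕ) : ℝ) / (k + 1)) * n + 2 * ((k : ℝ) ^ 2 + k + r) with hX
  have X0 : 0 ≤ X := by positivity
  have m1 : Forces n (⌊X⌋₊ + 1) (k ^ 2 + k + r + 1) :=
    upper n k r _ (by push_cast; exact Nat.lt_floor_add_one X)
  have m2 : f n (k ^ 2 + k + r + 1) ≤ ⌊X⌋₊ + 1 := Nat.sInf_le m1
  have m3 : Forces n (f n (k ^ 2 + k + r + 1)) (k ^ 2 + k + r + 1) :=
    Nat.sInf_mem (s := {e | Forces n e (k ^ 2 + k + r + 1)}) ⟨_, m1⟩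
  have m4 := lower n k r _ hr m3
  have u1 : (f n (k ^ 2 + k + r + 1) : ℝ) ≤ X + 1 := by
    have a : ((f n (k ^ 2 + k + r + 1) : ℕ) : ℝ) ≤ ((⌊X⌋₊ + 1 : ℕ) : ℝ) := by exact_mod_cast m2
    have b := Nat.floor_le X0
    push_cast at a
    linarith
  have q0 : (0:ℝ) ≤ ((r / 2 : ℕ) : ℝ) := Nat.cast_nonneg _
  have q1 : ((r / 2 : ℕ) : ℝ) ≤ k + 1 := by exact_mod_cast (by omega : r / 2 ≤ k + 1)
  have q2 : ((r / 2 : ℕ) : ℝ) / (k + 1) ≤ 1 := by
    rw [div_le_one (by linarith)]; exact q1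
  have q3 := mul_le_mul_of_nonneg_right q2 hn0
  refine ⟨?_, u1⟩
  · by_cases hn : k + 1 ≤ n
    · have a : (((n - k) * k + (n / (k + 1) - 1) * (r / 2) : ℕ) : ℝ)
          < (f n (k ^ 2 + k + r + 1) : ℝ) := by exact_mod_cast m4
      have d1 : 1 ≤ n / (k + 1) := (Nat.one_le_div_iff (by omega)).mpr (by omega)
      rw [Nat.cast_add, Nat.cast_mul, Nat.cast_mul, Nat.cast_sub (by omega), Nat.cast_sub d1] at a
      have d2 : (n : ℝ) / (k + 1) < ((n / (k + 1) : ℕ) : ℝ) + 1 := by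
        rw [div_lt_iff₀ (by linarith)]
        have := Nat.lt_mul_div_succ n (by omega : 0 < k + 1)
        have b : (n : ℝ) < ((k + 1 : ℕ) : ℝ) * (((n / (k + 1) : ℕ) : ℝ) + 1) := by
          exact_mod_cast this
        push_cast at b
        linarith
      have e : ((k : ℝ) + ((r / 2 : ℕ) : ℝ) / (k + 1)) * n
          = k * n + ((r / 2 : ℕ) : ℝ) * ((n : ℝ) / (k + 1)) := by ring
      rw [e]
      have t := mul_le_mul_of_nonneg_left d2.le q0
      push_cast at a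
      nlinarith
    · have a : (n : ℝ) ≤ k := by exact_mod_cast (by omega : n ≤ k)
      have b : (0:ℝ) ≤ (f n (k ^ 2 + k + r + 1) : ℝ) := Nat.cast_nonneg _
      nlinarith

end Pool.Agent.Results.MP_b5bf4a_co.Estimate
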