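import Pool.Agent.H98.Cut9
import Pool.Agent.H98.Cut10

namespace Pool.Agent.Results.MP_b5bf4a_co.Exact

/-- Every geometric graph on n points in general position with at least e edges has a line,
through no vertex, meeting at least t edges. -/
def Forces (n e t : ℕ) : Prop :=
  ∀ p : Fin n → ℝ × ℝ, Function.Injective p →
    (∀ a b c, a ≠ b → a ≠ c → b ≠ c → ¬ Collinear ℝ ({p a, p b, p c} : Set (ℝ × ℝ))) →
    ∀ G : SimpleGraph (Fin n), e ≤ G.edgeSet.ncard →
      ∃ α β γ : ℝ, (α ≠ 0 ∨ β ≠ 0) ∧ (∀ v, α * (p v).1 + β * (p v).2 ≠ γ) ∧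
        t ≤ Set.ncard {d ∈ G.edgeSet | ∃ u v, d = s(u, v) ∧
          ∃ x ∈ segment ℝ (p u) (p v), α * x.1 + β * x.2 = γ}

/-- The least number of edges forcing a line to meet t edges. -/
noncomputable def f (n t : ℕ) : ℕ := sInf {e | Forces n e t}

theorem result (n k : ℕ) (h1 : 2 * k ^ 2 ≤ n) (h2 : 2 * k + 1 ≤ n) :
    f n (k ^ 2 + k + 1) = n * k + 1 := by
  classical
  have m1 : Forces n (n * k + 1) (k ^ 2 + k + 1) := by
    intro p hinj hgp G hE
    have hE' : Fintype.card (Fin n) * k < G.edgeFinset.card := by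
      rw [Fintype.card_fin, ← Set.ncard_coe_finset, SimpleGraph.coe_edgeFinset]
      exact hE
    obtain ⟨α, β, γ, g1, g2, x, y, hs⟩ := Pool.Agent.H98.Cut.best_line p hinj hgp G
    obtain ⟨c1, c2⟩ := Pool.Agent.H98.Cut.blk_of_small G hs k hE'
    rw [Fintype.card_fin] at c1 c2
    exact ⟨α, β, γ, g1, g2, Pool.Agent.H98.Cut.blk_big n k _ c2 h1 (by omega)⟩
  refine le_antisymm (Nat.sInf_le m1) ?_
  have m3 : Forces n (f n (k ^ 2 + k + 1)) (k ^ 2 + k + 1) :=
    Nat.sInf_mem (s := {e | Forces n e (k ^ 2 + k + 1)}) ⟨_, m1⟩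
  by_contra hc
  obtain ⟨α, β, γ, _, g2, g3⟩ := m3 (Pool.Agent.H98.Cut.par n) (Pool.Agent.H98.Cut.par_inj n)
    (Pool.Agent.H98.Cut.par_gp n) (Pool.Agent.H98.Cut.circ n k)
    (le_trans (by omega) (Pool.Agent.H98.Cut.cedge_count n k h2))
  have := g3.trans (Pool.Agent.H98.Cut.cline_cut n k α β γ g2)
  omega

end Pool.Agent.Results.MP_b5bf4a_co.Exact
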